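import Pool.Agent.H178R3.PosEmbed

/-!
# Universal sentences in completions of posets of regions

* Every universal sentence in the language `(∨, ∧)` of size `m` that fails in some lattice fails in
  `DM(H, B)` for some `H` in some `ℝ^e`, `e ≤ m + 1`. The lattice identities and the
  quasi-identities are universal sentences, so that no nontrivial one holds in all the `DM(H, B)`.
* For every `d ≥ 1` there is a quasi-identity that holds in `DM(H, B)` for all central arrangements
  in the dimensions `1, …, d`, and fails for some central arrangement in `ℝ^(d+6)`.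

The geometric lemmas (`exists_embedding`, `collapse`) are those of the starting library
`Pool.Agent.H178R3`, which proves the case of quasi-identities.
-/

set_option autoImplicit false

open Set Pool.Agent.H178R3 Pool.Agent.H178R3.CentralArrangement

namespace Pool.Agent.Results.MP_88c4e5_co.UniversalSentences

universe u

/-- Lattice terms, in the language `(∨, ∧)`, over the variables `x 0, x 1, …`. -/
inductive LTerm where
  /-- the variable `x i` -/
  | var (i : ℕ) : LTerm
  /-- the join of two terms -/
  | sup (s t : LTerm) : LTerm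
  /-- the meet of two terms -/
  | inf (s t : LTerm) : LTerm

/-- The value of a lattice term in a lattice, for given values of the variables. -/
def LTerm.eval {L : Type*} [Lattice L] (v : ℕ → L) : LTerm → L
  | .var i => v i
  | .sup s t => s.eval v ⊔ t.eval v
  | .inf s t => s.eval v ⊓ t.eval v

/-- The size of a term: the number of occurrences of variables and operations. -/
def LTerm.size : LTerm → ℕ
  | .var _ => 1
  | .sup s t => s.size + t.size + 1
  | .inf s t => s.size + t.size + 1

/-- Quantifier-free formulas: Boolean combinations of equations between lattice terms. -/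
inductive QF where
  /-- the equation `s = t` -/
  | eq (s t : LTerm) : QF
  /-- negation -/
  | neg (φ : QF) : QF
  /-- conjunction -/
  | and (φ ψ : QF) : QF
  /-- disjunction -/
  | or (φ ψ : QF) : QF

/-- The formula is true in a lattice, for given values of the variables. -/
def QF.Sat {L : Type*} [Lattice L] (v : ℕ → L) : QF → Prop
  | .eq s t => s.eval v = t.eval v
  | .neg φ => ¬ φ.Sat v
  | .and φ ψ => φ.Sat v ∧ ψ.Sat v
  | .or φ ψ => φ.Sat v ∨ ψ.Sat v

/-- The size of a formula: the sum of the sizes of the terms in it. -/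
def QF.size : QF → ℕ
  | .eq s t => s.size + t.size
  | .neg φ => φ.size
  | .and φ ψ => φ.size + ψ.size
  | .or φ ψ => φ.size + ψ.size

/-- The universal sentence with the quantifier-free part `φ` (all variables being quantified
universally) holds in the lattice `L`. -/
def QF.HoldsIn (φ : QF) (L : Type*) [Lattice L] : Prop := ∀ v : ℕ → L, φ.Sat v

/-- The quasi-identity `(p₁ = q₁ & … & pₖ = qₖ) ⇒ p = q`, as a universal sentence. The identity
`p = q` is the case of an empty list of premises. -/
def quasi (premises : List (LTerm × LTerm)) (p q : LTerm) : QF :=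
  premises.foldr (fun e φ => .or (.neg (.eq e.1 e.2)) φ) (.eq p q)

theorem quasi_sat {L : Type*} [Lattice L] (v : ℕ → L) (l : List (LTerm × LTerm)) (p q : LTerm) :
    (quasi l p q).Sat v ↔ ((∀ e ∈ l, e.1.eval v = e.2.eval v) → p.eval v = q.eval v) := by
  induction l with
  | nil => simp [quasi, QF.Sat]
  | cons e l ih =>
    have : (quasi (e :: l) p q).Sat v ↔ (¬ e.1.eval v = e.2.eval v ∨ (quasi l p q).Sat v) := by
      rfl
    rw [this, ih, List.forall_mem_cons]
    tauto

/-- The set of values of the subterms of a term. -/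
def LTerm.vals {L : Type*} [Lattice L] (v : ℕ → L) : LTerm → Set L
  | .var i => {v i}
  | .sup s t => insert (s.eval v ⊔ t.eval v) (s.vals v ∪ t.vals v)
  | .inf s t => insert (s.eval v ⊓ t.eval v) (s.vals v ∪ t.vals v)

theorem LTerm.vals_finite {L : Type*} [Lattice L] (v : ℕ → L) (t : LTerm) :
    (t.vals v).Finite := by
  induction t with
  | var i => exact Set.finite_singleton _
  | sup s t hs ht => exact (hs.union ht).insert _
  | inf s t hs ht => exact (hs.union ht).insert _

theorem LTerm.card_vals {L : Type*} [Lattice L] (v : ℕ → L) (t : LTerm) :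
    (t.vals v).ncard ≤ t.size := by
  induction t with
  | var i => exact (Set.ncard_singleton _).le
  | sup s t hs ht =>
    have h1 := Set.ncard_insert_le (s.eval v ⊔ t.eval v) (s.vals v ∪ t.vals v)
    have h2 := Set.ncard_union_le (s.vals v) (t.vals v)
    show (insert (s.eval v ⊔ t.eval v) (s.vals v ∪ t.vals v)).ncard ≤ s.size + t.size + 1
    omega
  | inf s t hs ht =>
    have h1 := Set.ncard_insert_le (s.eval v ⊓ t.eval v) (s.vals v ∪ t.vals v)
    have h2 := Set.ncard_union_le (s.vals v) (t.vals v)
    show (insert (s.eval v ⊓ t.eval v) (s.vals v ∪ t.vals v)).ncard ≤ s.size + t.size + 1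
    omega

theorem LTerm.eval_mem_vals {L : Type*} [Lattice L] (v : ℕ → L) (t : LTerm) :
    t.eval v ∈ t.vals v := by
  cases t with
  | var i => exact Set.mem_singleton _
  | sup s t => exact Set.mem_insert _ _
  | inf s t => exact Set.mem_insert _ _

/-- A map that preserves the joins and meets inside a finite set commutes with the evaluation of
terms all of whose subterms have values in that set. -/
theorem LTerm.eval_map {L M : Type*} [Lattice L] [Lattice M] {n : ℕ} {z : Fin n → L} {F : L → M}
    (hsup : ∀ x y w, z w = z x ⊔ z y → F (z w) = F (z x) ⊔ F (z y))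
    (hinf : ∀ x y w, z w = z x ⊓ z y → F (z w) = F (z x) ⊓ F (z y))
    (v : ℕ → L) (t : LTerm) (ht : t.vals v ⊆ Set.range z) :
    t.eval (fun i => F (v i)) = F (t.eval v) := by
  induction t with
  | var i => rfl
  | sup s t hs ht' =>
    have h1 : s.vals v ⊆ Set.range z := (subset_union_left.trans (subset_insert _ _)).trans ht
    have h2 : t.vals v ⊆ Set.range z := (subset_union_right.trans (subset_insert _ _)).trans ht
    obtain ⟨x, hx⟩ := h1 (s.eval_mem_vals v)
    obtain ⟨y, hy⟩ := h2 (t.eval_mem_vals v)
    obtain ⟨w, hw⟩ := ht ((LTerm.sup s t).eval_mem_vals v)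
    have e := hsup x y w (by rw [hx, hy, hw]; rfl)
    show s.eval _ ⊔ t.eval _ = F ((LTerm.sup s t).eval v)
    rw [hs h1, ht' h2, ← hw, e, hx, hy]
  | inf s t hs ht' =>
    have h1 : s.vals v ⊆ Set.range z := (subset_union_left.trans (subset_insert _ _)).trans ht
    have h2 : t.vals v ⊆ Set.range z := (subset_union_right.trans (subset_insert _ _)).trans ht
    obtain ⟨x, hx⟩ := h1 (s.eval_mem_vals v)
    obtain ⟨y, hy⟩ := h2 (t.eval_mem_vals v)
    obtain ⟨w, hw⟩ := ht ((LTerm.inf s t).eval_mem_vals v)
    have e := hinf x y w (by rw [hx, hy, hw]; rfl)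
    show s.eval _ ⊓ t.eval _ = F ((LTerm.inf s t).eval v)
    rw [hs h1, ht' h2, ← hw, e, hx, hy]

/-- The set of the values of all the subterms of the terms in a formula. -/
def QF.vals {L : Type*} [Lattice L] (v : ℕ → L) : QF → Set L
  | .eq s t => s.vals v ∪ t.vals v
  | .neg φ => φ.vals v
  | .and φ ψ => φ.vals v ∪ ψ.vals v
  | .or φ ψ => φ.vals v ∪ ψ.vals v

theorem QF.vals_finite {L : Type*} [Lattice L] (v : ℕ → L) (φ : QF) : (φ.vals v).Finite := by
  induction φ with
  | eq s t => exact (s.vals_finite v).union (t.vals_finite v)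
  | neg φ h => exact h
  | and φ ψ h1 h2 => exact h1.union h2
  | or φ ψ h1 h2 => exact h1.union h2

theorem QF.card_vals {L : Type*} [Lattice L] (v : ℕ → L) (φ : QF) :
    (φ.vals v).ncard ≤ φ.size := by
  induction φ with
  | eq s t =>
    have h := Set.ncard_union_le (s.vals v) (t.vals v)
    have h1 := s.card_vals v
    have h2 := t.card_vals v
    show (s.vals v ∪ t.vals v).ncard ≤ s.size + t.size
    omega
  | neg φ h => exact h
  | and φ ψ h1 h2 =>
    have h := Set.ncard_union_le (φ.vals v) (ψ.vals v)
    show (φ.vals v ∪ ψ.vals v).ncard ≤ φ.size + ψ.size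
    omega
  | or φ ψ h1 h2 =>
    have h := Set.ncard_union_le (φ.vals v) (ψ.vals v)
    show (φ.vals v ∪ ψ.vals v).ncard ≤ φ.size + ψ.size
    omega

theorem quasi_vals {L : Type*} [Lattice L] (v : ℕ → L) (S : Set L) (l : List (LTerm × LTerm))
    (p q : LTerm) (hl : ∀ e ∈ l, e.1.vals v ⊆ S ∧ e.2.vals v ⊆ S) (hp : p.vals v ⊆ S)
    (hq : q.vals v ⊆ S) : (quasi l p q).vals v ⊆ S := by
  induction l with
  | nil => exact union_subset hp hq
  | cons e l ih =>
    have h := hl e (by simp)
    exact union_subset (union_subset h.1 h.2) (ih fun e he => hl e (by simp [he]))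

theorem QF.vals_nonempty {L : Type*} [Lattice L] (v : ℕ → L) (φ : QF) : (φ.vals v).Nonempty := by
  induction φ with
  | eq s t => exact ⟨_, Or.inl (s.eval_mem_vals v)⟩
  | neg φ h => exact h
  | and φ ψ h1 h2 => exact h1.mono subset_union_left
  | or φ ψ h1 h2 => exact h1.mono subset_union_left

theorem QF.sat_map {L M : Type*} [Lattice L] [Lattice M] {n : ℕ} {z : Fin n → L} {F : L → M}
    (hle : ∀ k l, F (z k) ≤ F (z l) ↔ z k ≤ z l)
    (hsup : ∀ x y w, z w = z x ⊔ z y → F (z w) = F (z x) ⊔ F (z y))
    (hinf : ∀ x y w, z w = z x ⊓ z y → F (z w) = F (z x) ⊓ F (z y))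
    (v : ℕ → L) (φ : QF) (ht : φ.vals v ⊆ Set.range z) :
    φ.Sat (fun i => F (v i)) ↔ φ.Sat v := by
  induction φ with
  | eq s t =>
    have h1 : s.vals v ⊆ Set.range z := subset_union_left.trans ht
    have h2 : t.vals v ⊆ Set.range z := subset_union_right.trans ht
    show s.eval _ = t.eval _ ↔ s.eval v = t.eval v
    rw [LTerm.eval_map hsup hinf v s h1, LTerm.eval_map hsup hinf v t h2]
    obtain ⟨x, hx⟩ := h1 (s.eval_mem_vals v)
    obtain ⟨y, hy⟩ := h2 (t.eval_mem_vals v)
    rw [← hx, ← hy]
    exact ⟨fun h => le_antisymm ((hle _ _).1 h.le) ((hle _ _).1 h.ge), fun h => by rw [h]⟩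
  | neg φ h => exact not_congr (h ht)
  | and φ ψ h1 h2 =>
    exact and_congr (h1 (subset_union_left.trans ht)) (h2 (subset_union_right.trans ht))
  | or φ ψ h1 h2 =>
    exact or_congr (h1 (subset_union_left.trans ht)) (h2 (subset_union_right.trans ht))

/-- Every universal sentence that fails in some lattice fails in the completion of some poset of
regions. -/
theorem fails_in_completion (φ : QF) (hq : ∃ (L : Type u) (_ : Lattice L), ¬ φ.HoldsIn L) :
    ∃ (d : ℕ) (_ : 1 ≤ d ∧ d ≤ φ.size + 1) (A : CentralArrangement d) (B : A.Region),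
      ¬ φ.HoldsIn (DedekindCut (Pos A B)) := by
  classical
  obtain ⟨L, _, hL⟩ := hq
  unfold QF.HoldsIn at hL
  push Not at hL
  obtain ⟨v, hv⟩ := hL
  have hT : (φ.vals v).Finite := φ.vals_finite v
  let z : Fin hT.toFinset.card → L := fun i => (hT.toFinset.equivFin.symm i : L)
  have hz : Set.range z = φ.vals v := by
    ext a
    constructor
    · rintro ⟨i, rfl⟩
      exact hT.mem_toFinset.1 (hT.toFinset.equivFin.symm i).2
    · intro ha
      exact ⟨hT.toFinset.equivFin ⟨a, hT.mem_toFinset.2 ha⟩, by simp [z]⟩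
  have hpos : 0 < hT.toFinset.card := by
    obtain ⟨a, ha⟩ := φ.vals_nonempty v
    exact Finset.card_pos.2 ⟨a, hT.mem_toFinset.2 ha⟩
  obtain ⟨A, B, F, hle, hsup, hinf⟩ := exists_embedding hpos z
  have hcard : hT.toFinset.card ≤ φ.size := by
    rw [← Set.ncard_eq_toFinset_card _ hT]
    exact φ.card_vals v
  refine ⟨_, ⟨Nat.succ_le_succ (Nat.zero_le _), Nat.succ_le_succ hcard⟩, A, B,
    fun hold => hv ?_⟩
  exact (QF.sat_map hle hsup hinf v φ hz.ge).1 (hold fun i => F (v i))

/-- The premises of the quasi-identity that excludes the lattice `M_n` of length two with `n`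
atoms: the joins `x i ∨ x j` (`i ≠ j`, `i, j < n`) all equal `x n` and the meets `x i ∧ x j` all
equal `x (n + 1)`. -/
def prem (n : ℕ) : List (LTerm × LTerm) :=
  (List.range n).flatMap fun i => (List.range n).flatMap fun j =>
    if i = j then [] else
      [(.sup (.var i) (.var j), .var n), (.inf (.var i) (.var j), .var (n + 1))]

theorem noM_holdsIn {n : ℕ} {L : Type*} [Lattice L]
    (h : ∀ (x : Fin n → L) (u v : L), (∀ i j, i ≠ j → x i ⊔ x j = u) →
      (∀ i j, i ≠ j → x i ⊓ x j = v) → u = v) :
    (quasi (prem n) (.var n) (.var (n + 1))).HoldsIn L := by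
  intro v
  rw [quasi_sat]
  intro hv
  apply h (fun i => v i) (v n) (v (n + 1))
  · intro i j hij
    apply hv (.sup (.var i) (.var j), .var n)
    simp only [prem, List.mem_flatMap, List.mem_range]
    refine ⟨i, i.2, j, j.2, ?_⟩
    rw [if_neg (fun h => hij (Fin.ext h))]
    simp
  · intro i j hij
    apply hv (.inf (.var i) (.var j), .var (n + 1))
    simp only [prem, List.mem_flatMap, List.mem_range]
    refine ⟨i, i.2, j, j.2, ?_⟩
    rw [if_neg (fun h => hij (Fin.ext h))]
    simp

/-- The sentence fails in a completion in dimension `n + 3`. -/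
theorem noM_fails (n : ℕ) :
    ∃ (A : CentralArrangement (n + 3)) (B : A.Region),
      ¬ (quasi (prem n) (.var n) (.var (n + 1))).HoldsIn (DedekindCut (Pos A B)) := by
  let v : ℕ → Submodule ℚ (ℚ × ℚ) := fun i =>
    if i < n then Submodule.span ℚ {((1 : ℚ), (i : ℚ))} else if i = n then ⊤ else ⊥
  have hlt : ∀ i, i < n → v i = Submodule.span ℚ {((1 : ℚ), (i : ℚ))} := fun i hi => if_pos hi
  have hn : v n = ⊤ := by simp [v]
  have hn1 : v (n + 1) = ⊥ := by simp [v]
  have hsup : ∀ i j, i < n → j < n → i ≠ j → v i ⊔ v j = ⊤ := by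
    intro i j hi hj hij
    rw [hlt i hi, hlt j hj, eq_top_iff]
    rintro ⟨a, b⟩ _
    have hij' : ((j : ℚ) - i) ≠ 0 := by
      rw [sub_ne_zero]
      exact_mod_cast hij.symm
    rw [Submodule.mem_sup]
    refine ⟨(a - (b - a * i) / (j - i)) • ((1 : ℚ), (i : ℚ)),
      Submodule.smul_mem _ _ (Submodule.subset_span rfl),
      ((b - a * i) / (j - i)) • ((1 : ℚ), (j : ℚ)),
      Submodule.smul_mem _ _ (Submodule.subset_span rfl), ?_⟩
    ext
    · simp
    · simp only [Prod.smul_mk, smul_eq_mul, mul_one, Prod.mk_add_mk]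
      field_simp
      ring
  have hinf : ∀ i j, i < n → j < n → i ≠ j → v i ⊓ v j = ⊥ := by
    intro i j hi hj hij
    rw [hlt i hi, hlt j hj, eq_bot_iff]
    rintro ⟨a, b⟩ ⟨h1, h2⟩
    obtain ⟨s, hs⟩ := Submodule.mem_span_singleton.1 h1
    obtain ⟨t, ht⟩ := Submodule.mem_span_singleton.1 h2
    simp only [Prod.smul_mk, smul_eq_mul, mul_one, Prod.mk.injEq] at hs ht
    have hij' : ((i : ℚ) - j) ≠ 0 := by
      rw [sub_ne_zero]
      exact_mod_cast hij
    have ha : a * ((i : ℚ) - j) = 0 := by
      rw [mul_sub]
      have e1 : a * (i : ℚ) = b := by rw [← hs.1]; exact hs.2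
      have e2 : a * (j : ℚ) = b := by rw [← ht.1]; exact ht.2
      rw [e1, e2, sub_self]
    have ha0 : a = 0 := by
      rcases mul_eq_zero.1 ha with h | h
      · exact h
      · exact absurd h hij'
    have hb0 : b = 0 := by rw [← hs.2, hs.1, ha0, zero_mul]
    rw [ha0, hb0]
    exact Submodule.zero_mem _
  let z : Fin (n + 2) → Submodule ℚ (ℚ × ℚ) := fun i => v i
  have hzr : ∀ i, i < n + 2 → v i ∈ Set.range z := fun i hi => ⟨⟨i, hi⟩, rfl⟩
  have htop : (⊤ : Submodule ℚ (ℚ × ℚ)) ∈ Set.range z := hn ▸ hzr n (by omega)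
  have hbot : (⊥ : Submodule ℚ (ℚ × ℚ)) ∈ Set.range z := hn1 ▸ hzr (n + 1) (by omega)
  have hvals : (quasi (prem n) (.var n) (.var (n + 1))).vals v ⊆ Set.range z := by
    apply quasi_vals
    · intro e he
      simp only [prem, List.mem_flatMap, List.mem_range] at he
      obtain ⟨i, hi, j, hj, he⟩ := he
      by_cases hij : i = j
      · rw [if_pos hij] at he
        simp at he
      · rw [if_neg hij] at he
        simp only [List.mem_cons, List.not_mem_nil, or_false] at he
        rcases he with rfl | rfl
        · refine ⟨insert_subset ?_ (union_subset ?_ ?_), ?_⟩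
          · show v i ⊔ v j ∈ _
            rw [hsup i j hi hj hij]
            exact htop
          · exact singleton_subset_iff.2 (hzr i (by omega))
          · exact singleton_subset_iff.2 (hzr j (by omega))
          · exact singleton_subset_iff.2 (hzr n (by omega))
        · refine ⟨insert_subset ?_ (union_subset ?_ ?_), ?_⟩
          · show v i ⊓ v j ∈ _
            rw [hinf i j hi hj hij]
            exact hbot
          · exact singleton_subset_iff.2 (hzr i (by omega))
          · exact singleton_subset_iff.2 (hzr j (by omega))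
          · exact singleton_subset_iff.2 (hzr (n + 1) (by omega))
    · exact singleton_subset_iff.2 (hzr n (by omega))
    · exact singleton_subset_iff.2 (hzr (n + 1) (by omega))
  obtain ⟨A, B, F, hle, hsup', hinf'⟩ := exists_embedding (Nat.succ_pos (n + 1)) z
  refine ⟨A, B, fun hold => ?_⟩
  have h0 := (QF.sat_map hle hsup' hinf' v _ hvals).1 (hold fun i => F (v i))
  have h1 := (quasi_sat v _ _ _).1 h0 (by
    intro e he
    simp only [prem, List.mem_flatMap, List.mem_range] at he
    obtain ⟨i, hi, j, hj, he⟩ := he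
    by_cases hij : i = j
    · rw [if_pos hij] at he
      simp at he
    · rw [if_neg hij] at he
      simp only [List.mem_cons, List.not_mem_nil, or_false] at he
      rcases he with rfl | rfl
      · show v i ⊔ v j = v n
        rw [hsup i j hi hj hij, hn]
      · show v i ⊓ v j = v (n + 1)
        rw [hinf i j hi hj hij, hn1])
  have h2 : v n = v (n + 1) := h1
  rw [hn, hn1] at h2
  exact top_ne_bot h2

/-- Every universal sentence of size `m` in the language `(∨, ∧)` that fails in some lattice fails
in `DM(H, B)` for some central arrangement `H` in some `ℝ^e`, `1 ≤ e ≤ m + 1`, and some base region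
`B`. But for every `d ≥ 1` there is a quasi-identity `(p₁ = q₁ & … & pₖ = qₖ) ⇒ p = q` that holds in
`DM(H, B)` for all central arrangements `H` in `ℝ^e`, `1 ≤ e ≤ d`, and all base regions `B`, and
fails in `DM(H, B)` for some central arrangement `H` in `ℝ^(d+6)` and some `B`. -/
theorem result :
    (∀ φ : QF, (∃ (L : Type u) (_ : Lattice L), ¬ φ.HoldsIn L) →
      ∃ (e : ℕ) (_ : 1 ≤ e ∧ e ≤ φ.size + 1) (A : CentralArrangement e) (B : A.Region),
        ¬ φ.HoldsIn (DedekindCut (Pos A B))) ∧
    (∀ d : ℕ, 1 ≤ d → ∃ (l : List (LTerm × LTerm)) (p q : LTerm),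
      (∀ e : ℕ, 1 ≤ e → e ≤ d → ∀ (A : CentralArrangement e) (B : A.Region),
        (quasi l p q).HoldsIn (DedekindCut (Pos A B))) ∧
      ∃ (A : CentralArrangement (d + 6)) (B : A.Region),
        ¬ (quasi l p q).HoldsIn (DedekindCut (Pos A B))) := by
  refine ⟨fails_in_completion, fun d hd => ?_⟩
  refine ⟨prem (d + 3), .var (d + 3), .var (d + 3 + 1), ?_, noM_fails (d + 3)⟩
  intro e he hed A B
  obtain ⟨b, vec, N⟩ := exists_normals B
  refine noM_holdsIn fun x u v hsup hinf => ?_
  exact collapse N (fun i => x (Fin.castLE (by omega) i)) u v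
    (fun i j hij => hsup _ _ fun h => hij (Fin.castLE_injective _ h))
    (fun i j hij => hinf _ _ fun h => hij (Fin.castLE_injective _ h))

end Pool.Agent.Results.MP_88c4e5_co.UniversalSentences
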